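import Mathlib
import Pool.Agent.Lib_helper59.KE2.KZ
import Pool.Agent.Lib_helper59.NEG.Main
import Pool.Agent.Lib_helper25.PR.F0N
import Pool.Agent.Lib_helper25.PR.GH
import Pool.Agent.Lib_helper25.PR.PB
import Pool.Agent.Lib_helper26.SCH.Quo
import Pool.Agent.Lib_helper13.PL.FOU2

/-!
# The gap region `4 b' < 7 c`, `7 c ≤ 4 b`
-/

set_option autoImplicit false

namespace Pool.Agent.GP

open Finset Pool.Agent.GL Pool.Agent.POS Pool.Agent.Lib_helper13.PL Pool.Agent.NEG

/-! ## numbers -/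

theorem gap_b1 (c T w F F' F0 : ℤ) (hT : 4 * T ≤ 3 * c) (hq : 7 * c ≤ 4 * (c + T + w))
    (hr : 42 * w ≤ 13 * (c + T + w)) (hw : 0 ≤ w) (hF0 : 2 * F0 ≤ c ^ 2)
    (h1 : F' ≤ F0 - 6 * c * T + 5 * T ^ 2) (h2 : 5 * F + 13 * w ^ 2 ≤ 5 * F') :
    3 * F ≤ -(c + T + w) ^ 2 := by
  have e1 : 0 ≤ (3 * c - 4 * T) * (8 * T + w - 2 * c) := mul_nonneg (by linarith) (by linarith)
  have e2 : 0 ≤ (2 * c - 7 * w) ^ 2 := sq_nonneg _
  have e3 : 0 ≤ w ^ 2 := sq_nonneg _
  nlinarith

theorem gap_i (c T w F F' F0 : ℤ) (hT : 3 * T ≤ c) (hq : 7 * c ≤ 4 * (c + T + w))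
    (hr : 75 * w ≤ 22 * (c + T + w)) (hF0 : F0 ≤ c ^ 2)
    (h1 : F' ≤ F0 - 6 * c * T + 5 * T ^ 2)
    (h2 : 125 * F ≤ 125 * F' - 34 * (c + T + w) * w - 325 * w ^ 2) :
    3 * F ≤ -(c + T + w) ^ 2 := by
  have p : 0 ≤ c - 3 * T := by linarith
  have q : 0 ≤ 4 * (c + T + w) - 7 * c := by linarith
  have r : 0 ≤ 22 * (c + T + w) - 75 * w := by linarith
  have e1 := mul_nonneg p p
  have e2 := mul_nonneg p q
  have e3 := mul_nonneg p r
  have e4 := mul_nonneg q q
  have e5 := mul_nonneg q r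
  have e6 := mul_nonneg r r
  nlinarith

theorem gap_iii (c T w F F' F0 : ℤ) (hT : 3 * T ≤ c) (hq : 7 * c ≤ 4 * (c + T + w))
    (hr : 42 * w ≤ 13 * (c + T + w)) (hF0 : F0 ≤ c ^ 2)
    (h1 : F' ≤ F0 - 6 * c * T + 5 * T ^ 2)
    (h2 : 5 * F + 13 * w ^ 2 ≤ 5 * F') :
    4 * F ≤ -(c + T + w) ^ 2 := by
  have p : 0 ≤ c - 3 * T := by linarith
  have q : 0 ≤ 4 * (c + T + w) - 7 * c := by linarith
  have r : 0 ≤ 13 * (c + T + w) - 42 * w := by linarith
  have e1 := mul_nonneg p p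
  have e2 := mul_nonneg p q
  have e3 := mul_nonneg p r
  have e4 := mul_nonneg q q
  have e5 := mul_nonneg q r
  have e6 := mul_nonneg r r
  nlinarith

/-- `R ≥ 14/25 b` for `β ≤ .24` -/
theorem gap_R1 (b n F R : ℝ) (hb : 0 < b) (h1 : 100 * b ≤ 24 * n) (hF : -b ^ 2 < 3 * F)
    (hfou : n * (F + 3 * b ^ 2) ≤ 4 * b ^ 3 + 4 * R * (n * b - b ^ 2)) : 14 * b ≤ 25 * R := by
  by_contra hR
  push Not at hR
  have hn : 0 < n := by linarith
  have h2 : 25 * R * (b * (n - b)) < 14 * b * (b * (n - b)) :=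
    mul_lt_mul_of_pos_right hR (mul_pos hb (by linarith))
  have h3 : n * -b ^ 2 < n * (3 * F) := mul_lt_mul_of_pos_left hF hn
  have h4 : 0 ≤ b ^ 2 * (24 * n - 100 * b) := mul_nonneg (by positivity) (by linarith)
  have h5 : 0 < b ^ 2 * n := by positivity
  nlinarith

/-- `R ≥ 14/25 b` for `.24 ≤ β ≤ .27` -/
theorem gap_R2 (b n F R k : ℝ) (hb : 0 < b) (h0 : 24 * n ≤ 100 * b) (h1 : 100 * b ≤ 27 * n)
    (hk0 : 0 ≤ k) (hk : 7 * k ≤ n) (hF : -4 * k ^ 2 < 5 * F)
    (hfou : n * (F + 3 * b ^ 2) ≤ 4 * b ^ 3 + 4 * R * (n * b - b ^ 2)) : 14 * b ≤ 25 * R := by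
  by_contra hR
  push Not at hR
  have hn : 0 < n := by linarith
  have h2 : 25 * R * (b * (n - b)) < 14 * b * (b * (n - b)) :=
    mul_lt_mul_of_pos_right hR (mul_pos hb (by linarith))
  have hk2 : 49 * k ^ 2 ≤ n ^ 2 := by nlinarith
  have h3 : n * (-4 * k ^ 2) < n * (5 * F) := mul_lt_mul_of_pos_left hF hn
  have h3' : n * (49 * k ^ 2) ≤ n * n ^ 2 := mul_le_mul_of_nonneg_left hk2 hn.le
  have hb2 : 576 * n ^ 2 ≤ 10000 * b ^ 2 := by nlinarith
  have h4 : 0 ≤ b ^ 2 * (27 * n - 100 * b) := mul_nonneg (by positivity) (by linarith)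
  have h5 : 0 ≤ n * (10000 * b ^ 2 - 576 * n ^ 2) := mul_nonneg hn.le (by linarith)
  have h6 : 0 < n ^ 3 := by positivity
  nlinarith

/-! ## the bound for `F(B')` -/

section
universe u
variable {G : Type u} [AddCommGroup G] [Fintype G] [DecidableEq G]

theorem ff_le_sq (A : Finset G) : GL.FF A ≤ (A.card : ℤ) ^ 2 := by
  have h : GL.sch A ≤ (A.card : ℤ) ^ 2 := by
    unfold GL.sch
    have h1 := Finset.card_filter_le (A ×ˢ A) (fun p => p.1 + p.2 ∈ A)
    rw [Finset.card_product] at h1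
    have h2 : (((A ×ˢ A).filter (fun p => p.1 + p.2 ∈ A)).card : ℤ) ≤
        ((A.card * A.card : ℕ) : ℤ) := by exact_mod_cast h1
    rw [pow_two]
    exact_mod_cast h2
  unfold GL.FF
  linarith

theorem sum_sq_le {ι : Type*} (s : Finset ι) (g : ι → ℤ) (hg : ∀ u ∈ s, 0 ≤ g u) :
    ∑ u ∈ s, g u ^ 2 ≤ (∑ u ∈ s, g u) ^ 2 := by
  have h1 : ∑ u ∈ s, g u ^ 2 ≤ ∑ u ∈ s, g u * ∑ v ∈ s, g v := by
    apply Finset.sum_le_sum
    intro u hu
    rw [pow_two]
    exact mul_le_mul_of_nonneg_left (Finset.single_le_sum hg hu) (hg u hu)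
  rw [← Finset.sum_mul] at h1
  rw [pow_two]
  exact h1

theorem noWrap_crude {m : ℕ} [NeZero m] (chi : G →+ ZMod m) (B : Finset G)
    (hB : NoWrap chi B) (c T : ℤ) (hc : c = (lev chi B 0).card) (hT : (B.card : ℤ) = c + T) :
    GL.FF B ≤ GL.FF (lev chi B 0) - 6 * c * T + 5 * T ^ 2 := by
  have hstar := pl_star chi B hB
  obtain ⟨U, hU⟩ : ∃ U : Finset (ZMod m), U = (B.image chi).erase 0 := ⟨_, rfl⟩
  obtain ⟨h1, h2, -, -⟩ := lev_masses chi B hB _ rfl U hU
  rw [← hU] at hstar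
  rw [← hc] at h1
  set g : ZMod m → ℤ := fun u => ((lev chi B u).card : ℤ) with hg
  have hg0 : ∀ u, 0 ≤ g u := fun u => by simp only [hg]; positivity
  have hcost : ∑ u ∈ U, (6 * g u * (c - g u)) ≤
      ∑ u ∈ U, cost (lev chi B u) (lev chi B 0) := by
    apply Finset.sum_le_sum
    intro u _
    have := cost_small (lev chi B u) (lev chi B 0)
    rw [← hc] at this
    exact this
  have hTU : T = ∑ u ∈ U, g u := by
    have : ∑ u ∈ U, g u = ∑ u ∈ U, ((lev chi B u).card : ℤ) := rfl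
    linarith
  have hsplit : ∀ f : ZMod m → ℤ, ∑ u ∈ U, f u = ∑ u ∈ U.filter (fun u => 0 < u.valMinAbs), f u +
      ∑ u ∈ U.filter (fun u => ¬ 0 < u.valMinAbs), f u := fun f =>
    (Finset.sum_filter_add_sum_filter_not U (fun u => 0 < u.valMinAbs) f).symm
  obtain ⟨P, hP⟩ : ∃ P, P = ∑ u ∈ U.filter (fun u => 0 < u.valMinAbs), g u := ⟨_, rfl⟩
  obtain ⟨N, hN⟩ : ∃ N, N = ∑ u ∈ U.filter (fun u => ¬ 0 < u.valMinAbs), g u := ⟨_, rfl⟩
  have hP0 : 0 ≤ P := by rw [hP]; exact Finset.sum_nonneg fun u _ => hg0 u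
  have hN0 : 0 ≤ N := by rw [hN]; exact Finset.sum_nonneg fun u _ => hg0 u
  have hTPN : T = P + N := by rw [hTU, hsplit g, hP, hN]
  have hD : DD chi B = P - N := by rw [h2, hP, hN]
  have hsq : ∑ u ∈ U, g u ^ 2 ≤ P ^ 2 + N ^ 2 := by
    rw [hsplit (fun u => g u ^ 2), hP, hN]
    exact add_le_add (sum_sq_le _ g fun u _ => hg0 u) (sum_sq_le _ g fun u _ => hg0 u)
  have hexp : ∑ u ∈ U, (6 * g u * (c - g u)) = 6 * c * T - 6 * ∑ u ∈ U, g u ^ 2 := by
    rw [hTU, Finset.mul_sum, Finset.mul_sum, ← Finset.sum_sub_distrib]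
    exact Finset.sum_congr rfl fun u _ => by ring
  rw [hexp] at hcost
  rw [hD] at hstar
  have hPN : 0 ≤ P * N := mul_nonneg hP0 hN0
  rw [hTPN] at hcost ⊢
  nlinarith

/-- the real part, outer elements have cosine at most `- 1/2` -/
theorem re_le {χ : AddChar G ℂ} {m : ℕ} [NeZero m] {φ : G →+ ZMod m} (h : Std χ φ) (B : Finset G) :
    (hat B χ).re ≤ ((B.filter (fun x => 3 * |(φ x).valMinAbs| < (m : ℤ))).card : ℝ) -
      ((B.filter (fun x => ¬ 3 * |(φ x).valMinAbs| < (m : ℤ))).card : ℝ) / 2 := by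
  rw [hat_re_eq B h, ← Finset.sum_filter_add_sum_filter_not B
    (fun x => 3 * |(φ x).valMinAbs| < (m : ℤ))]
  have hm0 : (0 : ℝ) < m := by exact_mod_cast Nat.pos_of_ne_zero (NeZero.ne m)
  have h1 : ∑ x ∈ B.filter (fun x => 3 * |(φ x).valMinAbs| < (m : ℤ)),
      Real.cos (2 * Real.pi * ((φ x).valMinAbs : ℝ) / m) ≤
      ((B.filter (fun x => 3 * |(φ x).valMinAbs| < (m : ℤ))).card : ℝ) := by
    calc _ ≤ ∑ x ∈ B.filter (fun x => 3 * |(φ x).valMinAbs| < (m : ℤ)), (1 : ℝ) :=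
          Finset.sum_le_sum fun x _ => Real.cos_le_one _
      _ = _ := by simp
  have h2 : ∑ x ∈ B.filter (fun x => ¬ 3 * |(φ x).valMinAbs| < (m : ℤ)),
      Real.cos (2 * Real.pi * ((φ x).valMinAbs : ℝ) / m) ≤
      -(((B.filter (fun x => ¬ 3 * |(φ x).valMinAbs| < (m : ℤ))).card : ℝ) / 2) := by
    calc _ ≤ ∑ x ∈ B.filter (fun x => ¬ 3 * |(φ x).valMinAbs| < (m : ℤ)), (-(1 / 2) : ℝ) := by
          apply Finset.sum_le_sum
          intro x hx
          have hx' := (Finset.mem_filter.mp hx).2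
          push Not at hx'
          set i : ℤ := (φ x).valMinAbs with hi
          have hle : 2 * |i| ≤ (m : ℤ) := by
            have h3 := ZMod.natAbs_valMinAbs_le (φ x)
            rw [← hi] at h3
            have h4 : |i| = (i.natAbs : ℤ) := Int.abs_eq_natAbs i
            rw [h4]
            omega
          have hcos : Real.cos (2 * Real.pi * (i : ℝ) / m) =
              Real.cos (2 * Real.pi * (|i| : ℤ) / m) := by
            rcases abs_choice i with h5 | h5
            · rw [h5]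
            · rw [h5]
              push_cast
              rw [← Real.cos_neg]
              congr 1
              ring
          rw [hcos]
          have h6 : (m : ℝ) ≤ 3 * ((|i| : ℤ) : ℝ) := by exact_mod_cast hx'
          have h7 : 2 * ((|i| : ℤ) : ℝ) ≤ m := by exact_mod_cast hle
          have h8 : Real.cos (2 * Real.pi / 3) = -(1 / 2) := by
            have : 2 * Real.pi / 3 = Real.pi - Real.pi / 3 := by ring
            rw [this, Real.cos_pi_sub, Real.cos_pi_div_three]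
          rw [← h8]
          apply Real.cos_le_cos_of_nonneg_of_le_pi
          · positivity
          · rw [div_le_iff₀ hm0]
            nlinarith [Real.pi_pos]
          · rw [div_le_div_iff₀ (by norm_num) hm0]
            nlinarith [Real.pi_pos]
      _ = _ := by
          rw [Finset.sum_const, nsmul_eq_mul]
          ring
  linarith

/-! ## the gap region -/

theorem gap_case {m : ℕ} [NeZero m] (hm : 7 ≤ m) (chi : G →+ ZMod m)
    (hchi : Function.Surjective chi) (B B' : Finset G) (w : ℕ)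
    (hb0 : 0 < B.card) (hw : B'.card + w = B.card) (hB' : NoWrap chi B')
    (hgap : 4 * B'.card < 7 * (lev chi B' 0).card) (h74 : 7 * (lev chi B' 0).card ≤ 4 * B.card)
    (R : ℝ) (hR : R ≤ (B'.card : ℝ) - w / 2)
    (hrem : (GL.FF B : ℝ) ≤ GL.FF B' - (56 / 5 * R - 6 * B.card) * w - 13 / 5 * (w : ℝ) ^ 2)
    (hfou : (Nat.card G : ℝ) * (GL.FF B + 3 * (B.card : ℝ) ^ 2) ≤
      4 * (B.card : ℝ) ^ 3 + 4 * R * (Nat.card G * B.card - (B.card : ℝ) ^ 2))
    (hβ : 20 * B.card ≤ 9 * Nat.card G) :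
    Bd G B.card (GL.FF B) ∨
    ∃ (K : AddSubgroup G) (KK : Finset G), (∀ t ∈ K, chi t = 0) ∧ (∀ x, x ∈ KK ↔ x ∈ K) ∧
      4 * (((KK \ lev chi B' 0).card : ℤ) + ((lev chi B' 0 \ KK).card : ℤ)) ≤ Nat.card K ∧
      -4 * (Nat.card K : ℤ) ^ 2 < 5 * GL.FF B ∧
      4 * (lev chi B' 0).card ≤ 3 * B'.card ∧
      5 * GL.FF B + 13 * (w : ℤ) ^ 2 ≤ 5 * GL.FF B' := by
  classical
  by_cases hBd : Bd G B.card (GL.FF B)
  · exact Or.inl hBd
  have hκ := Pool.Agent.KE.kappa_nonneg hm chi hchi hb0 hβ (GL.FF B) hBd R hfou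
  have hbn : B.card < Nat.card G := by omega
  have hbR : (0 : ℝ) < B.card := by exact_mod_cast hb0
  have hwR : (0 : ℝ) ≤ w := by positivity
  have hbb : (B.card : ℝ) = B'.card + w := by exact_mod_cast hw.symm
  -- F ≤ F' - 13/5 w²
  have hrem5 : 5 * GL.FF B + 13 * (w : ℤ) ^ 2 ≤ 5 * GL.FF B' := by
    have h1 : 0 ≤ (56 / 5 * R - 6 * B.card) * w := mul_nonneg (by linarith) hwR
    have h2 : 5 * (GL.FF B : ℝ) + 13 * (w : ℝ) ^ 2 ≤ 5 * (GL.FF B' : ℝ) := by linarith
    exact_mod_cast h2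
  obtain ⟨c, hc⟩ : ∃ c : ℤ, c = (lev chi B' 0).card := ⟨_, rfl⟩
  obtain ⟨T, hT⟩ : ∃ T : ℤ, (B'.card : ℤ) = c + T := ⟨B'.card - c, by ring⟩
  have hb : (B.card : ℤ) = c + T + w := by
    rw [← hT]; exact_mod_cast hw.symm
  have hF' := noWrap_crude chi B' hB' c T hc hT
  have hgap' : 4 * (c + T) < 7 * c := by
    rw [← hT, hc]; exact_mod_cast hgap
  have h74' : 7 * c ≤ 4 * (c + T + w) := by
    rw [← hb, hc]; exact_mod_cast h74
  have hw42 : 42 * (w : ℤ) ≤ 13 * (c + T + w) := by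
    rw [← hb]
    have : 42 * (w : ℝ) ≤ 13 * B.card := by linarith
    exact_mod_cast this
  have hw0 : (0 : ℤ) ≤ w := by positivity
  have hc0 : 0 ≤ c := by rw [hc]; positivity
  have hTle : (lev chi B' 0).card ≤ B'.card := Finset.card_filter_le _ _
  have hT0 : 0 ≤ T := by
    have : c ≤ B'.card := by rw [hc]; exact_mod_cast hTle
    linarith
  have hthird : ¬ (3 * GL.FF B ≤ -(B.card : ℤ) ^ 2) := fun h => hBd (bd_third hbn h)
  -- case F0 small
  by_cases hF0 : 2 * GL.FF (lev chi B' 0) ≤ c ^ 2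
  · exfalso
    apply hthird
    rw [hb]
    exact gap_b1 c T w _ _ _ (by linarith) h74' hw42 hw0 hF0 hF' hrem5
  push Not at hF0
  have hF0c : GL.FF (lev chi B' 0) ≤ c ^ 2 := by rw [hc]; exact ff_le_sq _
  by_cases h3T : 3 * T ≤ c
  · -- excluded
    exfalso
    have hfG : -4 * (Nat.card chi.ker : ℤ) ^ 2 < 5 * GL.FF B := by
      have h1 := Pool.Agent.SCH.fG_ge_q chi hchi (b := B.card) (by
        rw [Nat.card_eq_fintype_card] at hβ; omega)
      have h2 : ¬ (GL.FF B ≤ Pool.Agent.SCH.fG G B.card) := by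
        rw [← Pool.Agent.SCH.Bd_card_iff]; exact hBd
      push Not at h2
      linarith
    have hker := Pool.Agent.SCH.card_ker_mul chi hchi
    rw [← Nat.card_eq_fintype_card] at hker
    have hk7 : 7 * Nat.card chi.ker ≤ Nat.card G := by
      rw [hker]; exact Nat.mul_le_mul_right _ hm
    rcases le_or_gt (100 * B.card) (27 * Nat.card G) with h27 | h27
    · have hR14 : 14 * (B.card : ℝ) ≤ 25 * R := by
        rcases le_or_gt (100 * B.card) (24 * Nat.card G) with h24 | h24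
        · refine gap_R1 B.card (Nat.card G) (GL.FF B) R hbR (by exact_mod_cast h24) ?_ hfou
          have := not_le.1 hthird
          exact_mod_cast this
        · refine gap_R2 B.card (Nat.card G) (GL.FF B) R (Nat.card chi.ker) hbR
            (by exact_mod_cast h24.le) (by exact_mod_cast h27) (by positivity)
            (by exact_mod_cast hk7) (by exact_mod_cast hfG) hfou
      have hw75 : 75 * (w : ℤ) ≤ 22 * (c + T + w) := by
        rw [← hb]
        have : 75 * (w : ℝ) ≤ 22 * B.card := by linarith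
        exact_mod_cast this
      have hrem125 : 125 * GL.FF B ≤ 125 * GL.FF B' - 34 * (c + T + w) * w
          - 325 * (w : ℤ) ^ 2 := by
        rw [← hb]
        have h1 : 34 * (B.card : ℝ) * w ≤ 125 * ((56 / 5 * R - 6 * B.card) * w) := by
          have : 0 ≤ (25 * R - 14 * B.card) * w := mul_nonneg (by linarith) hwR
          nlinarith
        have h2 : 125 * (GL.FF B : ℝ) ≤ 125 * (GL.FF B' : ℝ) - 34 * B.card * w
            - 325 * (w : ℝ) ^ 2 := by linarith
        exact_mod_cast h2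
      apply hthird
      rw [hb]
      exact gap_i c T w _ _ _ h3T h74' hw75 hF0c hF' hrem125
    · have h4 := gap_iii c T w _ _ _ h3T h74' hw42 hF0c hF' hrem5
      rw [← hb] at h4
      have h5 : 27 * (Nat.card G : ℤ) < 100 * (B.card : ℤ) := by exact_mod_cast h27
      have h6 : 7 * (Nat.card chi.ker : ℤ) ≤ Nat.card G := by exact_mod_cast hk7
      have h7 : (0 : ℤ) ≤ Nat.card chi.ker := by positivity
      have h8 : 189 * (Nat.card chi.ker : ℤ) ≤ 100 * B.card := by linarith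
      have h9 : (189 * (Nat.card chi.ker : ℤ)) ^ 2 ≤ (100 * (B.card : ℤ)) ^ 2 :=
        pow_le_pow_left₀ (by linarith) h8 2
      nlinarith
  · push Not at h3T
    obtain ⟨H, HH, hker, hmem, h3d, hF0H⟩ := f0_near chi (lev chi B' 0)
      (fun x hx => (Finset.mem_filter.mp hx).2) (by rw [← hc]; nlinarith [sq_nonneg c])
    obtain ⟨h, hh⟩ : ∃ h : ℤ, h = Nat.card H := ⟨_, rfl⟩
    obtain ⟨d, hd⟩ : ∃ d : ℤ, d = ((HH \ lev chi B' 0).card : ℤ) + ((lev chi B' 0 \ HH).card : ℤ) :=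
      ⟨_, rfl⟩
    rw [← hh, ← hd] at h3d hF0H
    have hHHc : (HH.card : ℤ) = h := by
      rw [hh, Nat.card_eq_fintype_card]
      have : HH = Finset.univ.filter (fun x => x ∈ H) := by
        ext x; simp [hmem]
      rw [this, Fintype.card_subtype]
    have hd0 : 0 ≤ d := by rw [hd]; positivity
    -- c ≤ h + d, h - d ≤ c
    have hc1 : c ≤ h + d := by
      have h1 : ((lev chi B' 0).card : ℤ) ≤ HH.card + (lev chi B' 0 \ HH).card := by
        have := Finset.card_le_card_sdiff_add_card (s := lev chi B' 0) (t := HH)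
        have h2 : (lev chi B' 0).card ≤ (lev chi B' 0 \ HH).card + HH.card := this
        have h3 : ((lev chi B' 0).card : ℤ) ≤ (((lev chi B' 0 \ HH).card + HH.card : ℕ) : ℤ) := by
          exact_mod_cast h2
        push_cast at h3
        linarith
      rw [← hc, hHHc] at h1
      have h4 : (0 : ℤ) ≤ (HH \ lev chi B' 0).card := by positivity
      linarith
    have hc2 : h - d ≤ c := by
      have h2 : HH.card ≤ (HH \ lev chi B' 0).card + (lev chi B' 0).card :=
        Finset.card_le_card_sdiff_add_card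
      have h3 : (HH.card : ℤ) ≤ (((HH \ lev chi B' 0).card + (lev chi B' 0).card : ℕ) : ℤ) := by
        exact_mod_cast h2
      push_cast at h3
      rw [← hc, hHHc] at h3
      have h4 : (0 : ℤ) ≤ (lev chi B' 0 \ HH).card := by positivity
      linarith
    have h18 : 50 * d ≤ 9 * h := by
      by_contra hcon
      push Not at hcon
      have h1 : (50 * (h - 3 * d)) ^ 2 ≤ (23 * h) ^ 2 :=
        pow_le_pow_left₀ (by linarith) (by linarith) 2
      have h2 : (2 * h) ^ 2 ≤ (3 * c) ^ 2 := pow_le_pow_left₀ (by linarith) (by linarith) 2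
      have h3 : 0 < h := by linarith
      have h4 : 0 < h ^ 2 := by positivity
      nlinarith
    have h4c : 4 * (lev chi B' 0).card ≤ 3 * B'.card := by
      have : 4 * c ≤ 3 * (B'.card : ℤ) := by rw [hT]; linarith
      rw [hc] at this
      exact_mod_cast this
    by_cases hF5 : -4 * (Nat.card H : ℤ) ^ 2 < 5 * GL.FF B
    · right
      refine ⟨H, HH, hker, hmem, ?_, hF5, h4c, hrem5⟩
      rw [← hd, ← hh]
      linarith
    · left
      push Not at hF5
      refine bd_al ?_ hF5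
      -- H is alive
      have halive : ∀ t : ℕ, t ≤ m → Alive H t := by
        intro t ht
        obtain ⟨g, hg⟩ := hchi 1
        refine ⟨g, fun i h0 h1 h2 => ?_⟩
        have h3 := hker _ h2
        rw [map_nsmul, hg, nsmul_eq_mul, mul_one] at h3
        have h4 := (ZMod.natCast_eq_zero_iff i m).1 h3
        exact absurd (Nat.le_of_dvd h0 h4) (by omega)
      have hlow : h ≤ (B.card : ℤ) := by rw [hb]; linarith
      have hup : (B.card : ℤ) ≤ 3 * h := by
        rw [hb]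
        linarith
      rw [hh] at hlow hup
      have hlow' : Nat.card H ≤ B.card := by exact_mod_cast hlow
      have hup' : B.card ≤ 3 * Nat.card H := by exact_mod_cast hup
      rcases le_or_gt B.card (2 * Nat.card H) with h2 | h2
      · exact ⟨0, Or.inr ⟨by simpa using hlow', by simpa using h2, halive _ (by omega)⟩⟩
      · exact ⟨1, Or.inl ⟨by simpa using h2.le, by simpa using hup', halive _ (by omega)⟩⟩

end

end Pool.Agent.GP
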