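import Mathlib
import Pool.Agent.Lib_helper18.NR.Third
import Pool.Agent.Lib_helper18.NR.Removal

/-!
# The certificate `2 δ + δ' ≥ α Re B^(χ) - β' Re B^(3χ)` and the removal of the outer part
-/

set_option autoImplicit false

namespace Pool.Agent.GP

open Finset Pool.Agent.Lib_helper13.PL Pool.Agent.NR

/-! ## numbers -/

/-- `α` -/
noncomputable def tA (s r : ℝ) : ℝ := 3 * (4 * s ^ 2 - 1) * (r + s) / (8 * s ^ 2)

/-- `β'` -/
noncomputable def tB (s r : ℝ) : ℝ :=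
  (4 * s ^ 2 - 3) * (r / 8 + (2 + s ^ 2) * (4 * s ^ 2 - 3) / (8 * s * (4 * s ^ 2 - 1)))

noncomputable def tc1 (s : ℝ) : ℝ := 3 * (4 * s ^ 2 - 1) / (8 * s ^ 3)

noncomputable def tc3 (s : ℝ) : ℝ := 1 / (8 * s ^ 3)

noncomputable def td1 (s : ℝ) : ℝ := 3 * (4 * s ^ 2 - 1) / (8 * s ^ 2)

noncomputable def td3 (s : ℝ) : ℝ :=
  (2 + s ^ 2) * (4 * s ^ 2 - 3) / (8 * s ^ 2 * (4 * s ^ 2 - 1))

theorem tB_nonneg (s r : ℝ) (hs : 3 ≤ 4 * s ^ 2) (hs0 : 0 < s) (hr0 : 0 ≤ r) : 0 ≤ tB s r := by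
  unfold tB
  have h1 : 0 < 4 * s ^ 2 - 1 := by linarith
  have h2 : 0 ≤ 4 * s ^ 2 - 3 := by linarith
  positivity

theorem tau_poly (p : ℝ) (h0 : 0 ≤ p) (h1 : 4 * p ≤ 1) :
    224 / 10 * (3 / 4 + p) * (1 + 2 * p) ≤
      (1936 / 1000 + 256 / 1000 * p) * (6 + 21 * p + 14 * p ^ 2 - 8 * p ^ 3) +
      (866 / 1000 + 536 / 1000 * p) * (6 + 24 * p + 2 * p ^ 2 - 8 * p ^ 3) := by
  have h2 : 0 ≤ p * (1 - 4 * p) := mul_nonneg h0 (by linarith)
  have h3 : 0 ≤ p ^ 2 * (1 - 4 * p) := mul_nonneg (by positivity) (by linarith)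
  have h4 : 0 ≤ p ^ 3 * (1 - 4 * p) := mul_nonneg (by positivity) (by linarith)
  nlinarith

theorem tau_ge (s r : ℝ) (hs : 3 ≤ 4 * s ^ 2) (hs0 : 0 < s) (hs1 : s ≤ 1) (hr0 : 0 ≤ r)
    (hr : r ^ 2 = 3 + s ^ 2) : 14 / 5 ≤ tA s r - tB s r := by
  obtain ⟨p, hp⟩ : ∃ p, p = s ^ 2 - 3 / 4 := ⟨_, rfl⟩
  have hq : s ^ 2 = 3 / 4 + p := by linarith
  have hp0 : 0 ≤ p := by linarith
  have hp1 : 4 * p ≤ 1 := by nlinarith
  have hr1 : 1936 / 1000 + 256 / 1000 * p ≤ r := by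
    apply abs_le_of_sq_le_sq' _ hr0 |>.2
    rw [hr, hq]
    nlinarith [mul_nonneg hp0 (show (0:ℝ) ≤ 1 - 4 * p by linarith)]
  have hs2 : 866 / 1000 + 536 / 1000 * p ≤ s := by
    apply abs_le_of_sq_le_sq' _ hs0.le |>.2
    rw [hq]
    nlinarith [mul_nonneg hp0 (show (0:ℝ) ≤ 1 - 4 * p by linarith)]
  have hk := tau_poly p hp0 hp1
  have h1 : 0 ≤ 6 + 21 * p + 14 * p ^ 2 - 8 * p ^ 3 := by
    have : 0 ≤ p ^ 2 * (1 - 4 * p) := mul_nonneg (by positivity) (by linarith)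
    nlinarith [sq_nonneg p]
  have h2 : 0 ≤ 6 + 24 * p + 2 * p ^ 2 - 8 * p ^ 3 := by
    have : 0 ≤ p ^ 2 * (1 - 4 * p) := mul_nonneg (by positivity) (by linarith)
    nlinarith [sq_nonneg p]
  have h3 := mul_le_mul_of_nonneg_right hr1 h1
  have h4 := mul_le_mul_of_nonneg_right hs2 h2
  have e : tA s r - tB s r - 14 / 5 = (r * (6 + 21 * p + 14 * p ^ 2 - 8 * p ^ 3) +
      s * (6 + 24 * p + 2 * p ^ 2 - 8 * p ^ 3) - 224 / 10 * (3 / 4 + p) * (1 + 2 * p)) /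
      (8 * (3 / 4 + p) * (1 + 2 * p)) := by
    have hne : (3 / 4 + p) ≠ 0 := by positivity
    have hne2 : (1 + 2 * p) ≠ 0 := by positivity
    have hne3 : s ≠ 0 := hs0.ne'
    have e1 : tB s r = (4 * p) * (r / 8 + s * (2 + (3 / 4 + p)) * (4 * p) /
        (8 * (3 / 4 + p) * (2 * (1 + 2 * p)))) := by
      unfold tB
      have e2 : 4 * s ^ 2 - 3 = 4 * p := by rw [hq]; ring
      have e3 : 4 * s ^ 2 - 1 = 2 * (1 + 2 * p) := by rw [hq]; ring
      have e4 : (2 + s ^ 2) * (4 * s ^ 2 - 3) / (8 * s * (4 * s ^ 2 - 1)) =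
          s * (2 + s ^ 2) * (4 * s ^ 2 - 3) / (8 * s ^ 2 * (4 * s ^ 2 - 1)) := by
        rw [e2, e3]
        field_simp
      rw [e4, e2, e3, hq]
    have e5 : tA s r = 3 * (2 * (1 + 2 * p)) * (r + s) / (8 * (3 / 4 + p)) := by
      unfold tA
      rw [hq]
      congr 2
      ring
    rw [e1, e5]
    field_simp
    ring
  have h5 : 0 ≤ tA s r - tB s r - 14 / 5 := by
    rw [e]
    apply div_nonneg
    · linarith
    · positivity
  linarith

/-! ## the two trigonometric polynomials -/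

/-- `p · Im z + q · Im z³` -/
noncomputable def HH (p q : ℝ) (z : ℂ) : ℝ := p * z.im + q * (z ^ 3).im

theorem cube_im (z : ℂ) (hz : ‖z‖ = 1) : (z ^ 3).im = 3 * z.im - 4 * z.im ^ 3 := by
  have h1 : z.re ^ 2 + z.im ^ 2 = 1 := by
    have := Complex.normSq_eq_norm_sq z
    rw [hz, Complex.normSq_apply] at this
    nlinarith
  have e : (z ^ 3).im = 3 * z.re ^ 2 * z.im - z.im ^ 3 := by
    simp only [pow_succ, pow_zero, one_mul, Complex.mul_im, Complex.mul_re]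
    ring
  rw [e, show z.re ^ 2 = 1 - z.im ^ 2 by linarith]
  ring

theorem cube_re (z : ℂ) (hz : ‖z‖ = 1) : (z ^ 3).re = 4 * z.re ^ 3 - 3 * z.re := by
  have h1 : z.re ^ 2 + z.im ^ 2 = 1 := by
    have := Complex.normSq_eq_norm_sq z
    rw [hz, Complex.normSq_apply] at this
    nlinarith
  have e : (z ^ 3).re = z.re ^ 3 - 3 * z.im ^ 2 * z.re := by
    simp only [pow_succ, pow_zero, one_mul, Complex.mul_im, Complex.mul_re]
    ring
  rw [e, show z.im ^ 2 = 1 - z.re ^ 2 by linarith]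
  ring

theorem im_abs_le (z : ℂ) (hz : ‖z‖ = 1) : |z.im| ≤ 1 := by
  rw [← hz]; exact Complex.abs_im_le_norm z

theorem H1_le (s : ℝ) (hs : 3 ≤ 4 * s ^ 2) (hs0 : 0 < s) (z : ℂ) (hz : ‖z‖ = 1) :
    |HH (tc1 s) (tc3 s) z| ≤ 1 := by
  have hs2 : 1 ≤ 2 * s := by nlinarith
  have hW := abs_le.mp (im_abs_le z hz)
  obtain ⟨W, hWd⟩ : ∃ W, W = z.im := ⟨_, rfl⟩
  rw [← hWd] at hW
  have e1 : 1 - HH (tc1 s) (tc3 s) z = (W - s) ^ 2 * (W + 2 * s) / (2 * s ^ 3) := by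
    unfold HH tc1 tc3
    rw [cube_im z hz, ← hWd]
    field_simp
    ring
  have e2 : 1 + HH (tc1 s) (tc3 s) z = (W + s) ^ 2 * (2 * s - W) / (2 * s ^ 3) := by
    unfold HH tc1 tc3
    rw [cube_im z hz, ← hWd]
    field_simp
    ring
  have h1 : 0 ≤ (W - s) ^ 2 * (W + 2 * s) / (2 * s ^ 3) :=
    div_nonneg (mul_nonneg (sq_nonneg _) (by linarith)) (by positivity)
  have h2 : 0 ≤ (W + s) ^ 2 * (2 * s - W) / (2 * s ^ 3) :=
    div_nonneg (mul_nonneg (sq_nonneg _) (by linarith)) (by positivity)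
  rw [abs_le]
  constructor <;> linarith

theorem td3_nonneg (s : ℝ) (hs : 3 ≤ 4 * s ^ 2) : 0 ≤ td3 s := by
  unfold td3
  have h1 : 0 < 4 * s ^ 2 - 1 := by linarith
  have h2 : 0 ≤ 4 * s ^ 2 - 3 := by linarith
  positivity

theorem td_sub (s : ℝ) (hs : 3 ≤ 4 * s ^ 2) (hs0 : 0 < s) (hs1 : s ≤ 1) :
    td1 s - td3 s ≤ 1 := by
  have h1 : 0 < 4 * s ^ 2 - 1 := by linarith
  have hne : (4 * s ^ 2 - 1) ≠ 0 := h1.ne'
  have e : 1 - (td1 s - td3 s) = 3 * (4 * s ^ 2 - 3) * (1 - s ^ 2) /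
      (8 * s ^ 2 * (4 * s ^ 2 - 1)) := by
    unfold td1 td3
    field_simp
    ring
  have h2 : 0 ≤ 3 * (4 * s ^ 2 - 3) * (1 - s ^ 2) / (8 * s ^ 2 * (4 * s ^ 2 - 1)) := by
    apply div_nonneg
    · have : 0 ≤ 1 - s ^ 2 := by nlinarith
      have h3 : 0 ≤ 4 * s ^ 2 - 3 := by linarith
      positivity
    · positivity
  linarith

theorem td_nine (s : ℝ) (hs : 3 ≤ 4 * s ^ 2) (hs0 : 0 < s) (hs1 : s ≤ 1) :
    9 * td3 s ≤ td1 s := by
  have h1 : 0 < 4 * s ^ 2 - 1 := by linarith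
  have hne : (4 * s ^ 2 - 1) ≠ 0 := h1.ne'
  have e : td1 s - 9 * td3 s = 3 * (19 - 4 * s ^ 2) * (1 - s ^ 2) /
      (8 * s ^ 2 * (4 * s ^ 2 - 1)) := by
    unfold td1 td3
    field_simp
    ring
  have h2 : 0 ≤ 3 * (19 - 4 * s ^ 2) * (1 - s ^ 2) / (8 * s ^ 2 * (4 * s ^ 2 - 1)) := by
    apply div_nonneg
    · have : 0 ≤ 1 - s ^ 2 := by nlinarith
      have h3 : 0 ≤ 19 - 4 * s ^ 2 := by nlinarith
      positivity
    · positivity
  linarith

theorem H2_le (s : ℝ) (hs : 3 ≤ 4 * s ^ 2) (hs0 : 0 < s) (hs1 : s ≤ 1) (z : ℂ) (hz : ‖z‖ = 1) :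
    |HH (td1 s) (td3 s) z| ≤ 1 := by
  have h3 := td3_nonneg s hs
  have h9 := td_nine s hs hs0 hs1
  have h1 := td_sub s hs hs0 hs1
  have hW := abs_le.mp (im_abs_le z hz)
  obtain ⟨W, hWd⟩ : ∃ W, W = z.im := ⟨_, rfl⟩
  rw [← hWd] at hW
  obtain ⟨a, ha⟩ : ∃ a, a = td1 s := ⟨_, rfl⟩
  obtain ⟨b, hb⟩ : ∃ b, b = td3 s := ⟨_, rfl⟩
  have e : HH (td1 s) (td3 s) z = a * W + b * (3 * W - 4 * W ^ 3) := by
    unfold HH
    rw [cube_im z hz, ← hWd, ha, hb]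
  rw [e]
  rw [← ha, ← hb] at h1 h9
  rw [← hb] at h3
  have k1 : (1 + 2 * W) ^ 2 ≤ 9 := by nlinarith
  have k2 : (1 - 2 * W) ^ 2 ≤ 9 := by nlinarith
  have k3 : 0 ≤ (1 - W) * (a - b * (1 + 2 * W) ^ 2) := by
    apply mul_nonneg (by linarith)
    nlinarith [mul_le_mul_of_nonneg_left k1 h3]
  have k4 : 0 ≤ (1 + W) * (a - b * (1 - 2 * W) ^ 2) := by
    apply mul_nonneg (by linarith)
    nlinarith [mul_le_mul_of_nonneg_left k2 h3]
  rw [abs_le]
  constructor <;> nlinarith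

/-! ## the identity -/

theorem cert_identity (s k r : ℝ) (hs : 3 ≤ 4 * s ^ 2) (hs0 : 0 < s) (hk : k ^ 2 = 1 - s ^ 2)
    (hr : r ^ 2 = 3 + s ^ 2) (a ρ w : ℂ) (ha : a = ⟨k, s⟩) (hρ : ρ = ⟨r / 2, k / 2⟩) :
    HH (tc1 s) (tc3 s) (w * a * (starRingEnd ℂ) ρ) -
      HH (tc1 s) (tc3 s) (w * (starRingEnd ℂ) a * (starRingEnd ℂ) ρ) -
      HH (td1 s) (td3 s) (w * (starRingEnd ℂ) a) = tA s r * w.re - tB s r * (w ^ 3).re := by
  have h1 : 0 < 4 * s ^ 2 - 1 := by linarith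
  have hne : (4 * s ^ 2 - 1) ≠ 0 := h1.ne'
  have hne' : s ≠ 0 := hs0.ne'
  have a3 : a ^ 3 = ⟨k * (1 - 4 * s ^ 2), s * (3 - 4 * s ^ 2)⟩ := by
    rw [ha]
    apply Complex.ext
    · simp only [pow_succ, pow_zero, one_mul, Complex.mul_im, Complex.mul_re]
      linear_combination k * hk
    · simp only [pow_succ, pow_zero, one_mul, Complex.mul_im, Complex.mul_re]
      linear_combination 3 * s * hk
  have ρ3 : ρ ^ 3 = ⟨r * s ^ 2 / 2, k * (2 + s ^ 2) / 2⟩ := by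
    rw [hρ]
    apply Complex.ext
    · simp only [pow_succ, pow_zero, one_mul, Complex.mul_im, Complex.mul_re]
      linear_combination r / 8 * hr - 3 * r / 8 * hk
    · simp only [pow_succ, pow_zero, one_mul, Complex.mul_im, Complex.mul_re]
      linear_combination 3 * k / 8 * hr - k / 8 * hk
  have e1 : td1 s = tc1 s * s := by
    unfold td1 tc1
    field_simp
  have e2 : tc3 s * s * (3 - 4 * s ^ 2) * (2 + s ^ 2) = td3 s * (1 - 4 * s ^ 2) := by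
    have e0 : td3 s * (1 - 4 * s ^ 2) = -(td3 s * (4 * s ^ 2 - 1)) := by ring
    have e00 : td3 s * (4 * s ^ 2 - 1) = (2 + s ^ 2) * (4 * s ^ 2 - 3) / (8 * s ^ 2) := by
      have : td3 s = (2 + s ^ 2) * (4 * s ^ 2 - 3) / (8 * s ^ 2) / (4 * s ^ 2 - 1) := by
        unfold td3; rw [div_div]
      rw [this, div_mul_cancel₀ _ hne]
    rw [e0, e00]
    unfold tc3
    field_simp
    ring
  have e3 : tA s r = tc1 s * s * (r + s) := by
    unfold tA tc1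
    field_simp
  have e4 : tB s r = -((3 - 4 * s ^ 2) * (tc3 s * s ^ 3 * r + td3 s * s)) := by
    unfold tB tc3 td3
    field_simp
    ring
  unfold HH
  rw [mul_pow, mul_pow, mul_pow, mul_pow, ← map_pow, ← map_pow, a3, ρ3, ha, hρ, e3, e4]
  generalize w ^ 3 = w3
  obtain ⟨X, Y⟩ := w
  obtain ⟨X3, Y3⟩ := w3
  simp only [Complex.mul_im, Complex.mul_re, Complex.conj_re, Complex.conj_im]
  linear_combination (X * s - Y * k) * e1 + k * Y3 * e2

/-! ## the certificate -/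

section
variable {G : Type*} [AddCommGroup G]

/-- certificate for one character and one square root `a` of `χ x` in the first quadrant -/
theorem cert_core [Finite G] [DecidableEq G] (B : Finset G) (χ : AddChar G ℂ) (x : G) (s k : ℝ)
    (hs : 3 ≤ 4 * s ^ 2) (hs0 : 0 < s) (hk : k ^ 2 = 1 - s ^ 2) (a : ℂ) (ha : a = ⟨k, s⟩)
    (hax : χ x = a ^ 2) :
    tA s √(3 + s ^ 2) * ∑ y ∈ B, (χ y).re - tB s √(3 + s ^ 2) * ∑ y ∈ B, ((χ y) ^ 3).re ≤
      ((2 * dlt B x + dlt' B x : ℤ) : ℝ) := by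
  obtain ⟨r, hrd⟩ : ∃ r, r = √(3 + s ^ 2) := ⟨_, rfl⟩
  have hr0 : 0 ≤ r := by rw [hrd]; exact Real.sqrt_nonneg _
  have hr : r ^ 2 = 3 + s ^ 2 := by rw [hrd]; exact Real.sq_sqrt (by positivity)
  rw [← hrd]
  have hs1 : s ≤ 1 := by nlinarith [sq_nonneg k]
  obtain ⟨ρ, hρ⟩ : ∃ ρ : ℂ, ρ = ⟨r / 2, k / 2⟩ := ⟨_, rfl⟩
  have na : ‖a‖ = 1 := by
    rw [← sq_eq_sq₀ (norm_nonneg _) (by norm_num), ← Complex.normSq_eq_norm_sq, ha,
      Complex.normSq_mk]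
    linarith
  have nρ : ‖ρ‖ = 1 := by
    rw [← sq_eq_sq₀ (norm_nonneg _) (by norm_num), ← Complex.normSq_eq_norm_sq, hρ,
      Complex.normSq_mk]
    nlinarith
  have nχ : ∀ y : G, ‖χ y‖ = 1 := fun y => AddChar.norm_apply χ y
  have aac : a * (starRingEnd ℂ) a = 1 := by
    rw [Complex.mul_conj, Complex.normSq_eq_norm_sq, na]; simp
  -- test for `δ`
  have t1 := dlt_test B x (fun y => (1 - HH (tc1 s) (tc3 s)
      (χ y * (starRingEnd ℂ) a * (starRingEnd ℂ) ρ)) / 2)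
    (fun y => by
      have := abs_le.mp (H1_le s hs hs0 (χ y * (starRingEnd ℂ) a * (starRingEnd ℂ) ρ)
        (by rw [norm_mul, norm_mul, RCLike.norm_conj, RCLike.norm_conj, na, nρ, nχ]; norm_num))
      linarith)
    (fun y => by
      have := abs_le.mp (H1_le s hs hs0 (χ y * (starRingEnd ℂ) a * (starRingEnd ℂ) ρ)
        (by rw [norm_mul, norm_mul, RCLike.norm_conj, RCLike.norm_conj, na, nρ, nχ]; norm_num))
      linarith)
  have t2 := dlt'_test B x (fun y => (1 - HH (td1 s) (td3 s)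
      (χ y * (starRingEnd ℂ) a)) / 2)
    (fun y => by
      have := abs_le.mp (H2_le s hs hs0 hs1 (χ y * (starRingEnd ℂ) a)
        (by rw [norm_mul, RCLike.norm_conj, na, nχ]; norm_num))
      linarith)
    (fun y => by
      have := abs_le.mp (H2_le s hs hs0 hs1 (χ y * (starRingEnd ℂ) a)
        (by rw [norm_mul, RCLike.norm_conj, na, nχ]; norm_num))
      linarith)
  have h1 : ∀ y : G, χ (y + x) * (starRingEnd ℂ) a * (starRingEnd ℂ) ρ =
      χ y * a * (starRingEnd ℂ) ρ := by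
    intro y
    rw [AddChar.map_add_eq_mul, hax]
    linear_combination χ y * a * (starRingEnd ℂ) ρ * aac
  have h2 : ∀ y : G, HH (td1 s) (td3 s) (χ (x - y) * (starRingEnd ℂ) a) =
      - HH (td1 s) (td3 s) (χ y * (starRingEnd ℂ) a) := by
    intro y
    have e : χ (x - y) * (starRingEnd ℂ) a =
        (starRingEnd ℂ) (χ y * (starRingEnd ℂ) a) := by
      rw [sub_eq_add_neg, AddChar.map_add_eq_mul, AddChar.map_neg_eq_conj, hax, map_mul,
        Complex.conj_conj]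
      linear_combination (starRingEnd ℂ) (χ y) * a * aac
    rw [e]
    unfold HH
    rw [← map_pow, Complex.conj_im, Complex.conj_im]
    ring
  have e1 : ∑ y ∈ B, (χ y).re * tA s r - ∑ y ∈ B, ((χ y) ^ 3).re * tB s r =
      2 * ∑ y ∈ B, ((1 - HH (tc1 s) (tc3 s)
      (χ y * (starRingEnd ℂ) a * (starRingEnd ℂ) ρ)) / 2 - (1 - HH (tc1 s) (tc3 s)
      (χ (y + x) * (starRingEnd ℂ) a * (starRingEnd ℂ) ρ)) / 2) +
      ∑ y ∈ B, ((1 - HH (td1 s) (td3 s) (χ y * (starRingEnd ℂ) a)) / 2 -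
        (1 - HH (td1 s) (td3 s) (χ (x - y) * (starRingEnd ℂ) a)) / 2) := by
    rw [Finset.mul_sum, ← Finset.sum_sub_distrib, ← Finset.sum_add_distrib]
    refine Finset.sum_congr rfl fun y _ => ?_
    rw [h1 y, h2 y]
    have := cert_identity s k r hs hs0 hk hr a ρ (χ y) ha hρ
    linarith
  rw [Finset.mul_sum, Finset.mul_sum]
  have e2 : ∑ y ∈ B, tA s r * (χ y).re - ∑ y ∈ B, tB s r * ((χ y) ^ 3).re =
      ∑ y ∈ B, (χ y).re * tA s r - ∑ y ∈ B, ((χ y) ^ 3).re * tB s r := by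
    congr 1 <;> exact Finset.sum_congr rfl fun y _ => mul_comm _ _
  rw [e2, e1]
  push_cast
  linarith

/-- **certificate** `2 δ + δ' ≥ α Re B^(χ) - β' Re B^(3χ)` -/
theorem cert [Finite G] [DecidableEq G] (B : Finset G) {χ : AddChar G ℂ} {m : ℕ}
    {φ : G →+ ZMod m} (h : Std χ φ) (x : G) (s : ℝ) (hsd : s = |Real.sin (ang φ x)|)
    (hs : 3 ≤ 4 * s ^ 2) :
    tA s √(3 + s ^ 2) * (hat B χ).re - tB s √(3 + s ^ 2) * (hat B (3 • χ)).re ≤
      ((2 * dlt B x + dlt' B x : ℤ) : ℝ) := by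
  have hs0 : 0 < s := by
    have : 0 ≤ s := by rw [hsd]; exact abs_nonneg _
    rcases this.lt_or_eq with h1 | h1
    · exact h1
    · rw [← h1] at hs; norm_num at hs
  have hk : (Real.cos (ang φ x)) ^ 2 = 1 - s ^ 2 := by
    rw [hsd, sq_abs]
    have := Real.sin_sq_add_cos_sq (ang φ x)
    linarith
  have hre : (hat B χ).re = ∑ y ∈ B, (χ y).re := by
    unfold hat; rw [Complex.re_sum]
  rw [hat3_re, hre]
  rcases le_or_gt 0 (Real.sin (ang φ x)) with hp | hn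
  · refine cert_core B χ x s _ hs hs0 hk ⟨Real.cos (ang φ x), s⟩ rfl ?_
    rw [ea_sq h x]
    congr 1
    apply Complex.ext
    · rw [ea_re]
    · rw [ea_im, hsd, abs_of_nonneg hp]
  · have e1 := cert_core B (-χ) x s _ hs hs0 hk ⟨Real.cos (ang φ x), s⟩ rfl ?_
    · have e2 : ∀ y : G, (-χ) y = (starRingEnd ℂ) (χ y) := by
        intro y
        rw [AddChar.neg_apply, AddChar.map_neg_eq_conj]
      have e3 : ∑ y ∈ B, ((-χ) y).re = ∑ y ∈ B, (χ y).re :=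
        Finset.sum_congr rfl fun y _ => by rw [e2, Complex.conj_re]
      have e4 : ∑ y ∈ B, (((-χ) y) ^ 3).re = ∑ y ∈ B, ((χ y) ^ 3).re :=
        Finset.sum_congr rfl fun y _ => by rw [e2, ← map_pow, Complex.conj_re]
      rw [e3, e4] at e1
      exact e1
    · rw [AddChar.neg_apply, AddChar.map_neg_eq_conj, ea_sq h x, map_pow]
      congr 1
      apply Complex.ext
      · rw [Complex.conj_re, ea_re]
      · rw [Complex.conj_im, ea_im, hsd, abs_of_neg hn]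

theorem outer_num {m : ℕ} [NeZero m] (φ : G →+ ZMod m) (x : G)
    (hx : ¬ 3 * |(φ x).valMinAbs| < (m : ℤ)) :
    3 ≤ 4 * |Real.sin (ang φ x)| ^ 2 := by
  have hm0 : (0 : ℝ) < m := by exact_mod_cast Nat.pos_of_ne_zero (NeZero.ne m)
  push Not at hx
  set i : ℤ := (φ x).valMinAbs with hi
  have hle : 2 * |i| ≤ (m : ℤ) := by
    have h3 := ZMod.natAbs_valMinAbs_le (φ x)
    rw [← hi] at h3
    have h4 : |i| = (i.natAbs : ℤ) := Int.abs_eq_natAbs i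
    rw [h4]
    omega
  have h6 : (m : ℝ) ≤ 3 * ((|i| : ℤ) : ℝ) := by exact_mod_cast hx
  have h7 : 2 * ((|i| : ℤ) : ℝ) ≤ m := by exact_mod_cast hle
  have hπ := Real.pi_pos
  obtain ⟨u, hu⟩ : ∃ u, u = Real.pi * ((|i| : ℤ) : ℝ) / m := ⟨_, rfl⟩
  have hu1 : Real.pi / 3 ≤ u := by
    rw [hu, div_le_div_iff₀ (by norm_num) hm0]
    nlinarith
  have hu2 : u ≤ Real.pi / 2 := by
    rw [hu, div_le_div_iff₀ hm0 (by norm_num)]
    nlinarith
  have hang : ang φ x = u ∨ ang φ x = -u := by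
    unfold ang
    rw [← hi, hu]
    rcases abs_choice i with h5 | h5
    · left; rw [h5]
    · right; rw [h5]; push_cast; ring
  have hc0 : 0 ≤ Real.cos u := Real.cos_nonneg_of_mem_Icc ⟨by linarith, hu2⟩
  have hc1 : Real.cos u ≤ 1 / 2 := by
    rw [← Real.cos_pi_div_three]
    exact Real.cos_le_cos_of_nonneg_of_le_pi (by positivity) (by linarith) hu1
  have hs2 := Real.sin_sq_add_cos_sq u
  rw [sq_abs]
  rcases hang with h8 | h8
  · rw [h8]; nlinarith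
  · rw [h8, Real.sin_neg, neg_sq]; nlinarith

theorem outer_re {χ : AddChar G ℂ} {m : ℕ} [NeZero m] {φ : G →+ ZMod m} (h : Std χ φ) [Finite G]
    (x : G) (hx : ¬ 3 * |(φ x).valMinAbs| < (m : ℤ)) :
    -1 ≤ (χ x).re ∧ (χ x).re ≤ -(1 / 2) := by
  have h1 := outer_num φ x hx
  have h2 : (χ x).re = 1 - 2 * Real.sin (ang φ x) ^ 2 := by
    rw [ea_sq h x, pow_two, Complex.mul_re, ea_re, ea_im]
    have := Real.sin_sq_add_cos_sq (ang φ x)
    nlinarith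
  rw [sq_abs] at h1
  refine ⟨?_, by rw [h2]; linarith⟩
  have h3 := Complex.abs_re_le_norm (χ x)
  rw [AddChar.norm_apply] at h3
  exact (abs_le.mp h3).1

/-- the certificate for an outer `x ∈ W` after the removal of `W` -/
theorem cert_removed [Finite G] [DecidableEq G] (B W : Finset G) {χ : AddChar G ℂ} {m : ℕ}
    [NeZero m] {φ : G →+ ZMod m} (h : Std χ φ) (hW : W ⊆ B)
    (hout : ∀ x ∈ W, ¬ 3 * |(φ x).valMinAbs| < (m : ℤ))
    (h3 : (hat B (3 • χ)).re ≤ (hat B χ).re) (h0 : 0 ≤ (hat B χ).re) (x : G) (hx : x ∈ W) :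
    14 / 5 * ((hat B χ).re + W.card / 2) ≤
      ((2 * dlt (B \ W) x + dlt' (B \ W) x : ℤ) : ℝ) := by
  have hs := outer_num φ x (hout x hx)
  obtain ⟨s, hsd⟩ : ∃ s, s = |Real.sin (ang φ x)| := ⟨_, rfl⟩
  rw [← hsd] at hs
  have hs0 : 0 < s := by
    have : 0 ≤ s := by rw [hsd]; exact abs_nonneg _
    rcases this.lt_or_eq with h1 | h1
    · exact h1
    · rw [← h1] at hs; norm_num at hs
  have hs1 : s ≤ 1 := by rw [hsd]; exact Real.abs_sin_le_one _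
  have hcert := cert (B \ W) h x s hsd hs
  obtain ⟨r, hrd⟩ : ∃ r, r = √(3 + s ^ 2) := ⟨_, rfl⟩
  have hr0 : 0 ≤ r := by rw [hrd]; exact Real.sqrt_nonneg _
  have hr : r ^ 2 = 3 + s ^ 2 := by rw [hrd]; exact Real.sq_sqrt (by positivity)
  rw [← hrd] at hcert
  have hβ := tB_nonneg s r hs hs0 hr0
  have hτ := tau_ge s r hs hs0 hs1 hr0 hr
  obtain ⟨α, hα⟩ : ∃ α, α = tA s r := ⟨_, rfl⟩
  obtain ⟨β, hβd⟩ : ∃ β, β = tB s r := ⟨_, rfl⟩
  rw [← hα, ← hβd] at hcert hτ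
  rw [← hβd] at hβ
  have k1 : (hat (B \ W) χ).re = (hat B χ).re - ∑ y ∈ W, (χ y).re := by
    unfold hat
    rw [Complex.re_sum, Complex.re_sum]
    linarith [Finset.sum_sdiff (f := fun y => (χ y).re) hW]
  have k3 : (hat (B \ W) (3 • χ)).re = (hat B (3 • χ)).re - ∑ y ∈ W, ((χ y) ^ 3).re := by
    rw [hat3_re, hat3_re]
    linarith [Finset.sum_sdiff (f := fun y => ((χ y) ^ 3).re) hW]
  rw [k1, k3] at hcert
  have k4 : (α - β) * (W.card / 2) ≤ ∑ y ∈ W, (β * ((χ y) ^ 3).re - α * (χ y).re) := by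
    have : (α - β) * (W.card / 2) = ∑ y ∈ W, (α - β) / 2 := by
      rw [Finset.sum_const, nsmul_eq_mul]; ring
    rw [this]
    apply Finset.sum_le_sum
    intro y hy
    obtain ⟨z1, z2⟩ := outer_re h y (hout y hy)
    rw [cube_re (χ y) (AddChar.norm_apply χ y)]
    obtain ⟨c, hcd⟩ : ∃ c, c = -(χ y).re := ⟨_, rfl⟩
    have e : (χ y).re = -c := by rw [hcd]; ring
    rw [e] at z1 z2 ⊢
    have z3 : 0 ≤ (α - β) * (c - 1 / 2) := mul_nonneg (by linarith) (by linarith)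
    have z4 : 0 ≤ β * (c * (1 - c ^ 2)) :=
      mul_nonneg hβ (mul_nonneg (by linarith) (by nlinarith))
    nlinarith
  rw [Finset.sum_sub_distrib, ← Finset.mul_sum, ← Finset.mul_sum] at k4
  have k5 : β * (hat B (3 • χ)).re ≤ β * (hat B χ).re := mul_le_mul_of_nonneg_left h3 hβ
  have hw : (0 : ℝ) ≤ W.card := by positivity
  have k6 : 14 / 5 * ((hat B χ).re + W.card / 2) ≤ (α - β) * ((hat B χ).re + W.card / 2) :=
    mul_le_mul_of_nonneg_right hτ (by linarith)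
  nlinarith

/-- **removal of the outer part** -/
theorem removal [Finite G] [DecidableEq G] (B W B' : Finset G) {χ : AddChar G ℂ} {m : ℕ}
    [NeZero m] {φ : G →+ ZMod m} (h : Std χ φ) (hW : W ⊆ B) (hB' : B' = B \ W)
    (hout : ∀ x ∈ W, ¬ 3 * |(φ x).valMinAbs| < (m : ℤ))
    (h3 : (hat B (3 • χ)).re ≤ (hat B χ).re) (h0 : 0 ≤ (hat B χ).re) :
    (Lib_helper13.PL.FF B : ℝ) ≤ Lib_helper13.PL.FF B' -
      (56 / 5 * (hat B χ).re - 6 * B.card) * W.card - 13 / 5 * (W.card : ℝ) ^ 2 := by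
  subst hB'
  have hd : Disjoint (B \ W) W := Finset.sdiff_disjoint
  have h1 := FF_union_le (B \ W) W hd
  rw [Finset.sdiff_union_of_subset hW] at h1
  have hcard : ((B \ W).card : ℝ) = B.card - W.card := by
    have := Finset.card_sdiff_add_card_eq_card hW
    have h2 : ((B \ W).card : ℝ) + W.card = B.card := by exact_mod_cast this
    linarith
  have h2 : (Lib_helper13.PL.FF B : ℝ) ≤ Lib_helper13.PL.FF (B \ W) +
      6 * ((B \ W).card : ℝ) * W.card + 9 * (W.card : ℝ) ^ 2 -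
      4 * ∑ x ∈ W, ((2 * dlt (B \ W) x + dlt' (B \ W) x : ℤ) : ℝ) := by
    have : ((Lib_helper13.PL.FF B : ℤ) : ℝ) ≤ ((Lib_helper13.PL.FF (B \ W) +
      6 * ((B \ W).card : ℤ) * W.card + 9 * (W.card : ℤ) ^ 2 -
      4 * ∑ x ∈ W, (2 * dlt (B \ W) x + dlt' (B \ W) x) : ℤ) : ℝ) := by exact_mod_cast h1
    push_cast at this ⊢
    linarith
  have h4 : (W.card : ℝ) * (14 / 5 * ((hat B χ).re + W.card / 2)) ≤
      ∑ x ∈ W, ((2 * dlt (B \ W) x + dlt' (B \ W) x : ℤ) : ℝ) := by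
    have : (W.card : ℝ) * (14 / 5 * ((hat B χ).re + W.card / 2)) =
        ∑ x ∈ W, 14 / 5 * ((hat B χ).re + W.card / 2) := by
      rw [Finset.sum_const, nsmul_eq_mul]
    rw [this]
    exact Finset.sum_le_sum fun x hx => cert_removed B W h hW hout h3 h0 x hx
  rw [hcard] at h2
  nlinarith

end

end Pool.Agent.GP
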