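import Mathlib
import Pool.Agent.Lib_helper59.CA.Main
import Pool.Agent.Lib_helper59.CA.Re
import Pool.Agent.Lib_helper25.GP.Gap
import Pool.Agent.Lib_helper25.GP.Tau
import Pool.Agent.Lib_helper28.ST.Near
import Pool.Agent.Lib_helper26.SCH.Step

/-!
# `NCase` for `m ≥ 7`
-/

set_option autoImplicit false

universe u

namespace Pool.Agent.GP

open Finset Pool.Agent.GL Pool.Agent.POS Pool.Agent.Lib_helper13.PL Pool.Agent.SCH

/-- a character of the context has `3 • χ ≠ 0` for `m ≥ 4` -/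
theorem three_ne {G : Type u} [AddCommGroup G] [Fintype G] {m : ℕ} {χ : AddChar G ℂ}
    {φ : G →+ ZMod m} (hm : 4 ≤ m) (hs : Function.Surjective φ) (h : Std χ φ) :
    3 • χ ≠ 0 := by
  have : NeZero m := ⟨by omega⟩
  intro h0
  obtain ⟨g, hg⟩ := hs 1
  have h1 : (3 • χ) g = 1 := by rw [h0]; simp
  rw [AddChar.nsmul_apply, h g, hg, ← Complex.exp_nat_mul] at h1
  have hv : ((1 : ZMod m).valMinAbs : ℤ) = 1 := by
    have : Fact (1 < m) := ⟨by omega⟩
    have h2 : (1 : ZMod m) = ((1 : ℕ) : ZMod m) := by simp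
    rw [h2, ZMod.valMinAbs_natCast_of_le_half (by omega)]
    simp
  rw [hv, Complex.exp_eq_one_iff] at h1
  obtain ⟨n, hn⟩ := h1
  have hm0 : (m : ℂ) ≠ 0 := by exact_mod_cast (NeZero.ne m)
  have hpi : (2 * (Real.pi : ℂ) * Complex.I) ≠ 0 := by
    simp [Real.pi_ne_zero, Complex.I_ne_zero]
  have h3 : (3 : ℂ) = n * m := by
    have : (3 : ℂ) * (2 * (Real.pi : ℂ) * Complex.I) = n * m * (2 * (Real.pi : ℂ) * Complex.I) := by
      have := congrArg (fun z => z * (m : ℂ)) hn
      push_cast at this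
      field_simp at this
      linear_combination (2 * (Real.pi : ℂ) * Complex.I) * this
    exact mul_right_cancel₀ hpi this
  have h4 : (3 : ℤ) = n * m := by exact_mod_cast h3
  have h5 : (m : ℤ) ∣ 3 := ⟨n, by rw [h4]; ring⟩
  have := Int.le_of_dvd (by norm_num) h5
  omega

/-- the removal inequality in the context -/
theorem ctx_removal {G : Type u} [AddCommGroup G] [Fintype G] [DecidableEq G] (B : Finset G)
    {m : ℕ} [NeZero m] {χ : AddChar G ℂ} {φ : G →+ ZMod m} (H : Ctx B χ φ)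
    (h0 : 0 ≤ (hat B χ).re) :
    (GL.FF B : ℝ) ≤ GL.FF (B.filter (fun x => 3 * |(φ x).valMinAbs| < (m : ℤ))) -
      (56 / 5 * (hat B χ).re - 6 * B.card) *
        ((B.filter (fun x => (m : ℤ) ≤ 3 * |(φ x).valMinAbs|)).card : ℝ) -
      13 / 5 * ((B.filter (fun x => (m : ℤ) ≤ 3 * |(φ x).valMinAbs|)).card : ℝ) ^ 2 := by
  have h1 := removal B (B.filter (fun x => (m : ℤ) ≤ 3 * |(φ x).valMinAbs|))
    (B.filter (fun x => 3 * |(φ x).valMinAbs| < (m : ℤ))) H.std (Finset.filter_subset _ _)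
    (by
      ext x
      simp only [Finset.mem_filter, Finset.mem_sdiff, not_and, not_le]
      tauto)
    (fun x hx => by
      have := (Finset.mem_filter.1 hx).2
      omega)
    (H.largest _ (three_ne H.hm H.surj H.std)) h0
  rw [Lib_helper13.PL.FF_eq, Lib_helper13.PL.FF_eq] at h1
  exact h1

/-- `NCase` for `m ≥ 7` -/
theorem ncase_seven (G : Type u) [AddCommGroup G] [Fintype G] [DecidableEq G] (B : Finset G)
    (m : ℕ) (χ : AddChar G ℂ) (φ : G →+ ZMod m) (H : Ctx B χ φ) (hm : 7 ≤ m)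
    (hβ : 20 * B.card ≤ 9 * Fintype.card G) : False := by
  classical
  have : NeZero m := ⟨by omega⟩
  have hBd : ¬ Bd G B.card (GL.FF B) := by
    rw [Bd_card_iff]
    exact not_le.2 H.big
  have hb0 : 0 < B.card := by
    obtain ⟨x, hx, -⟩ := H.wrap
    exact Finset.card_pos.2 ⟨x, hx⟩
  have hfou := H.fou
  rw [← Nat.card_eq_fintype_card] at hfou hβ
  obtain ⟨R, hR⟩ : ∃ R, R = (hat B χ).re := ⟨_, rfl⟩
  rw [← hR] at hfou
  have hκ := Pool.Agent.KE.kappa_nonneg hm φ H.surj hb0 hβ (GL.FF B) hBd R hfou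
  have hbR : (0 : ℝ) < B.card := by exact_mod_cast hb0
  have hrem := ctx_removal B H (by rw [← hR]; linarith)
  rw [← hR] at hrem
  obtain ⟨B', hB'⟩ : ∃ B', B' = B.filter (fun x => 3 * |(φ x).valMinAbs| < (m : ℤ)) := ⟨_, rfl⟩
  obtain ⟨w, hw⟩ : ∃ w, w = (B.filter (fun x => (m : ℤ) ≤ 3 * |(φ x).valMinAbs|)).card :=
    ⟨_, rfl⟩
  rw [← hB', ← hw] at hrem
  apply hBd
  have IH : ∀ M : AddSubgroup G, M ≠ ⊤ → ∀ B' : Finset M, GL.Bd M B'.card (GL.FF B') := by
    intro M hM B''
    convert H.ih M hM B''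
  have hwsum : B'.card + w = B.card := by
    rw [hB', hw, ← Finset.card_filter_add_card_filter_not (s := B)
      (fun x => 3 * |(φ x).valMinAbs| < (m : ℤ))]
    congr 2
    ext x
    simp only [Finset.mem_filter, not_lt]
  have hNW : NoWrap φ B' := by
    intro x hx
    rw [hB', Finset.mem_filter] at hx
    exact hx.2
  by_cases h74 : 7 * (lev φ B' 0).card ≤ 4 * B'.card
  · refine Pool.Agent.CA.case_A hm φ H.surj IH B hb0 B' (by rw [hB']; rfl) w (by rw [hw]; rfl)
      h74 R hrem hfou hβ ?_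
    intro h7
    rw [hR]
    exact Pool.Agent.CA.re_Y h7 φ χ H.std B B' (by rw [hB']; rfl) w (by rw [hw]; rfl)
  · push Not at h74
    have hl0 : lev φ B' 0 = B.filter (fun x => φ x = 0) := by
      rw [hB']
      unfold lev
      rw [Finset.filter_filter]
      refine Finset.filter_congr fun x _ => ?_
      constructor
      · exact fun h => h.2
      · intro h
        refine ⟨?_, h⟩
        rw [h]
        simp only [ZMod.valMinAbs_zero, abs_zero, mul_zero]
        omega
    have hglue : 7 * (lev φ B' 0).card ≤ 4 * B.card := by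
      rw [hl0]; exact H.glue.le
    have hRle : R ≤ (B'.card : ℝ) - w / 2 := by
      rw [hR, hB', hw]
      have h1 := re_le H.std B
      have h2 : (B.filter (fun x => ¬ 3 * |(φ x).valMinAbs| < (m : ℤ))) =
          (B.filter (fun x => (m : ℤ) ≤ 3 * |(φ x).valMinAbs|)) := by
        ext x
        simp only [Finset.mem_filter, not_lt]
      rw [h2] at h1
      exact h1
    rcases gap_case hm φ H.surj B B' w hb0 hwsum hNW h74 hglue R hRle hrem hfou hβ with h1 | h1
    · exact h1
    · obtain ⟨K, KK, hK, hKK, h4, hF, h43, hr5⟩ := h1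
      have hKKc : KK.card = Nat.card K := by
        rw [Nat.card_eq_fintype_card]
        have : KK = univ.filter (fun x => x ∈ K) := by ext x; simp [hKK]
        rw [this, Fintype.card_subtype]
      refine ST.st_near φ H.surj (by omega) IH B K KK hKK hK B' (by rw [hB']; rfl) (w : ℤ)
        (by rw [hw]; rfl) (by rw [hKKc]; exact h4) hr5 (by rw [hKKc]; exact hF)
        (by exact_mod_cast h43) (by exact_mod_cast hglue) (by omega)

end Pool.Agent.GP
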